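import Pool.Agent.Helper85.FinOwn.Red

/-!
MP_d5621e_an, Q1 (negative answer), in the words of the problem file.

For every finite alphabet `A` with at least 16 letters the set `𝓕` of the shift invariant Borel
probability measures `μ` on `A^ℤ` for which `(A^ℤ, μ)` finitarily factors onto the fair coin
process is not a Borel subset of `𝔐`; its complement in `𝔐` is not even an analytic set.
-/

set_option autoImplicit false
open MeasureTheory Set

namespace Pool.Agent.Results.MP_d5621e_an.FinitaryFactorsNotBorel

universe u v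

/-- The left shift `σ`, for every alphabet. -/
def shift {A : Type u} (x : ℤ → A) : ℤ → A := fun i => x (i + 1)

/-- The space `𝔐` of the shift invariant Borel probability measures on `A^ℤ`, a subspace of the
space of all Borel probability measures on `A^ℤ` (product topology) with the weak* topology. -/
abbrev Inv (A : Type u) [MeasurableSpace A] : Type u :=
  {μ : ProbabilityMeasure (ℤ → A) //
    Measure.map shift (μ : Measure (ℤ → A)) = (μ : Measure (ℤ → A))}

/-- `(A^ℤ, μ)` finitarily factors onto the i.i.d. process `(B^ℤ, p^ℤ)`: there are a shift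
invariant measurable set `X₀` with `μ X₀ = 1` and a measurable map `φ : X₀ → B^ℤ` commuting with
the shift, sending `μ` to the product measure `p^ℤ`, such that for every `x` in `X₀` there is an
`n` for which `φ(x)₀ = φ(x')₀` for all `x'` in `X₀` which agree with `x` on `[-n, n]`. -/
def FinitarilyFactors {A : Type u} {B : Type v} [MeasurableSpace A] [MeasurableSpace B]
    (μ : Measure (ℤ → A)) (p : ProbabilityMeasure B) : Prop :=
  ∃ (X₀ : Set (ℤ → A)) (φ : X₀ → (ℤ → B)),
    MeasurableSet X₀ ∧ (∀ x, shift x ∈ X₀ ↔ x ∈ X₀) ∧ μ X₀ = 1 ∧ Measurable φ ∧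
    (∀ x y : X₀, (y : ℤ → A) = shift (x : ℤ → A) → φ y = shift (φ x)) ∧
    Measure.map φ (μ.comap (Subtype.val : X₀ → (ℤ → A)))
      = Measure.infinitePi (fun _ : ℤ => (p : Measure B)) ∧
    ∀ x : X₀, ∃ n : ℕ, ∀ x' : X₀,
      (∀ i : ℤ, |i| ≤ (n : ℤ) → (x' : ℤ → A) i = (x : ℤ → A) i) → φ x' 0 = φ x 0

/-- For every finite discrete alphabet `A` with at least 16 letters and the fair coin `p` on
`Bool`, the set `𝓕` of the invariant measures which finitarily factor onto the i.i.d. process of
`p` is not a Borel set of the space `𝔐`, and its complement in `𝔐` is not an analytic set. -/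
theorem result {A : Type u} [Finite A] [TopologicalSpace A] [DiscreteTopology A]
    [MeasurableSpace A] [BorelSpace A] (hA : 16 ≤ Nat.card A)
    (p : ProbabilityMeasure Bool) (hp : ∀ b : Bool, (p : Measure Bool) {b} = 2⁻¹) :
    ¬ MeasurableSet[borel (Inv A)] {μ : Inv A | FinitarilyFactors (μ.1 : Measure (ℤ → A)) p} ∧
    ¬ AnalyticSet {μ : Inv A | FinitarilyFactors (μ.1 : Measure (ℤ → A)) p}ᶜ :=
  Pool.Agent.Helper85.FinOwn.main_abs hA p hp _ fun _ => Iff.rfl

end Pool.Agent.Results.MP_d5621e_an.FinitaryFactorsNotBorel
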